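import Pool.Agent.Y725.CL.Fun
import Pool.Agent.Y248.CL.Che
import Pool.Agent.Y702.CL.DEP
import Pool.Agent.Y681.CL.Num
import Pool.Agent.Y385.CL.NUM2

/-!
# Every bound of slope below four for the number of Cayley factors fails

For every `α < 4` there are, in all large dimensions `d`, lattice simplices of degree `s` with
`α s < d` which are Cayley polytopes of boundedly many lattice polytopes only. They come from
random binary codes whose words have weight at most about half of the length and whose dual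
distance is proportional to the length. The slope four is the best possible for simplices, as a
lattice simplex of dimension `d ≥ 4 s - 1` is a lattice pyramid (Nill).

Authors: helper725, with t_CHE, t_DEP, t_NUM, t_NUM2 by helpers 248, 702, 681, 385.
-/

set_option autoImplicit false

open Set Filter Pool.Agent.H178R3.Cay

namespace Pool.Agent.Results.MP_c7d842_co.SlopeBelowFour

/-- **Negative answer to Q1, for every bound below `4 s - s ^ β`, `β > 2 / 3`.** All the simplices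
are the convex hulls of `d + 1` lattice points of `ℝ^d`, with nonempty interior, of degree
`s ≥ 1`.
(a) For `α < 4` there are such simplices with `α s < d`, for all large `d`, which are not Cayley
polytopes of `R = R(α)` or more lattice polytopes.
(b) For `β > 2 / 3` there are such simplices with `4 s ≤ d + d ^ β`, for all large `d`, which are
not Cayley polytopes of `d ^ β` or more lattice polytopes.
(c) For every nondecreasing `g` with `g(s) ≤ 4 s - s ^ β` for infinitely many `s`, the statement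
of Q1 with `g(s)` in place of `(17 s - 4) / 6` fails.
(d) The negation of Q1. -/
theorem result :
    (∀ α : ℝ, α < 4 → ∃ R : ℕ, ∀ᶠ d : ℕ in atTop, ∃ (s : ℕ) (v : Fin (d + 1) → Fin d → ℝ),
      (∀ i, IsLatticePoint (v i)) ∧ (interior (convexHull ℝ (range v))).Nonempty ∧
      1 ≤ s ∧ HasDegree (convexHull ℝ (range v)) s ∧ α * s < d ∧
      ∀ r : ℕ, R ≤ r → ¬ IsCayley (convexHull ℝ (range v)) r) ∧
    (∀ β : ℝ, 2 / 3 < β → ∀ᶠ d : ℕ in atTop, ∃ (s : ℕ) (v : Fin (d + 1) → Fin d → ℝ),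
      (∀ i, IsLatticePoint (v i)) ∧ (interior (convexHull ℝ (range v))).Nonempty ∧
      1 ≤ s ∧ HasDegree (convexHull ℝ (range v)) s ∧ 4 * (s : ℝ) ≤ d + (d : ℝ) ^ β ∧
      ∀ r : ℕ, (d : ℝ) ^ β ≤ r → ¬ IsCayley (convexHull ℝ (range v)) r) ∧
    (∀ (g : ℕ → ℝ) (β : ℝ), Monotone g → 2 / 3 < β → β < 1 →
      (∃ᶠ s : ℕ in atTop, g s ≤ 4 * (s : ℝ) - (s : ℝ) ^ β) →
      ∃ (s d : ℕ) (v : Fin (d + 1) → Fin d → ℝ),
      (∀ i, IsLatticePoint (v i)) ∧ (interior (convexHull ℝ (range v))).Nonempty ∧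
      1 ≤ s ∧ HasDegree (convexHull ℝ (range v)) s ∧ g s < d ∧
      ∀ r : ℕ, (d : ℤ) + 1 - ⌊g s⌋ ≤ r → ¬ IsCayley (convexHull ℝ (range v)) r) ∧
    (∃ (s d : ℕ) (P : Set (Fin d → ℝ)),
      1 ≤ s ∧ (17 * s - 4 : ℚ) / 6 < d ∧ IsLatticePolytope P ∧ (interior P).Nonempty ∧
      HasDegree P s ∧
      ∀ r : ℕ, (d : ℤ) + 1 - ⌊(17 * s - 4 : ℚ) / 6⌋ ≤ r → ¬ IsCayley P r) := by
  have hEX := Pool.Agent.Y725.CL.t_EX Pool.Agent.Y248.CL.t_CHE Pool.Agent.Y702.CL.t_DEP
  have hNUM : Pool.Agent.Y725.CL.P_NUM := Pool.Agent.Y681.CL.t_NUM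
  have hNUM2 : Pool.Agent.Y725.CL.P_NUM2 := Pool.Agent.Y385.CL.t_NUM2
  refine ⟨fun α hα => ?_, fun β hβ => ?_, fun g β hg h1 h2 hf => ?_,
    Pool.Agent.Y725.CL.q1 hEX hNUM2⟩
  · obtain ⟨R, hR⟩ := Pool.Agent.Y725.CL.bounded hEX hNUM α hα
    refine ⟨R, hR.mono fun d hd => ?_⟩
    obtain ⟨s, v, ⟨h1, h2, h3, h4⟩, h5, h6⟩ := hd
    exact ⟨s, v, h1, h2, h3, h4, h5, h6⟩
  · refine (Pool.Agent.Y725.CL.sharper hEX hNUM2 β hβ).mono fun d hd => ?_
    obtain ⟨s, v, ⟨h1, h2, h3, h4⟩, h5, h6⟩ := hd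
    exact ⟨s, v, h1, h2, h3, h4, h5, h6⟩
  · obtain ⟨s, d, v, ⟨h1, h2, h3, h4⟩, h5, h6⟩ :=
      Pool.Agent.Y725.CL.all_bounds hEX hNUM2 g β hg h1 h2 hf
    exact ⟨s, d, v, h1, h2, h3, h4, h5, h6⟩

end Pool.Agent.Results.MP_c7d842_co.SlopeBelowFour
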